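import Pool.Agent.H608R5.KL.Stm

/-! KL-K2: the variance bound for the half-block matrix (helper985) -/

set_option autoImplicit false

namespace Pool.Agent.TH985.KL

open Pool.Agent.H608R5.KL Finset

theorem w_nonneg {M : ℕ} (x y : I M) : 0 ≤ sam x y - dlt x y := by
  unfold sam dlt
  by_cases h : x = y
  · rw [if_pos h, if_pos (by rw [h])]; norm_num
  · rw [if_neg h]
    split_ifs <;> norm_num

theorem w_symm {M : ℕ} (x y : I M) : sam x y - dlt x y = sam y x - dlt y x := by
  unfold sam dlt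
  congr 1
  · simp only [eq_comm]
  · simp only [eq_comm]

theorem w_row {M : ℕ} (x : I M) : ∑ y, (sam x y - dlt x y) = (M : ℝ) - 1 := by
  rw [Finset.sum_sub_distrib]
  congr 1
  · unfold sam
    rw [Fintype.sum_prod_type]
    have h : ∀ c : Bool, ∑ y : Fin M, (if x.1 = c then (1 : ℝ) else 0) =
        if x.1 = c then (M : ℝ) else 0 := by
      intro c
      by_cases hc : x.1 = c
      · simp [hc]
      · simp [hc]
    show ∑ c : Bool, ∑ y : Fin M, (if x.1 = c then (1 : ℝ) else 0) = M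
    simp only [h]
    rw [Finset.sum_ite_eq]
    simp
  · unfold dlt
    rw [Finset.sum_ite_eq]
    simp

theorem w_sum {M : ℕ} (g h : I M → ℝ) :
    ∑ x, ∑ y, (sam x y - dlt x y) * (g x + h y) = ((M : ℝ) - 1) * (∑ x, g x + ∑ y, h y) := by
  have e1 : ∀ x, ∑ y, (sam x y - dlt x y) * (g x + h y) =
      ((M : ℝ) - 1) * g x + ∑ y, (sam x y - dlt x y) * h y := by
    intro x
    rw [← w_row x, Finset.sum_mul, ← Finset.sum_add_distrib]
    refine Finset.sum_congr rfl fun y _ => by ring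
  simp only [e1]
  rw [Finset.sum_add_distrib, Finset.sum_comm, ← Finset.mul_sum, mul_add]
  congr 1
  rw [Finset.mul_sum]
  refine Finset.sum_congr rfl fun y _ => ?_
  rw [← Finset.sum_mul]
  congr 1
  rw [← w_row y]
  exact Finset.sum_congr rfl fun x _ => w_symm x y

theorem sum_dev {M : ℕ} (hM : 1 ≤ M) (A : I M → ℝ) : ∑ x, (A x - mu A) = 0 := by
  have hM' : (M : ℝ) ≠ 0 := by
    have : M ≠ 0 := by omega
    exact_mod_cast this
  rw [Finset.sum_sub_distrib, Finset.sum_const, nsmul_eq_mul]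
  have hc : ((Finset.univ : Finset (I M)).card : ℝ) = 2 * M := by
    simp [Finset.card_univ]
  rw [hc]
  unfold mu
  field_simp
  ring

theorem t_K2 : S_K2 := by
  intro M hM A B
  have hcard : ((Finset.univ : Finset (I M)).card : ℝ) = 2 * M := by
    simp [Finset.card_univ]
  have hMr : (1 : ℝ) ≤ (M : ℝ) := by exact_mod_cast hM
  obtain ⟨D, hD⟩ : ∃ D : ℝ, D = mu A - mu B := ⟨_, rfl⟩
  have h1 : (∑ x, ∑ y, (sam x y - dlt x y) * (A x - B y) ^ 2) ≤
      ∑ x, ∑ y, (sam x y - dlt x y) *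
        ((D ^ 2 + 2 * D * (A x - mu A) + 2 * (A x - mu A) ^ 2) +
          (-2 * D * (B y - mu B) + 2 * (B y - mu B) ^ 2)) := by
    refine Finset.sum_le_sum fun x _ => Finset.sum_le_sum fun y _ => ?_
    refine mul_le_mul_of_nonneg_left ?_ (w_nonneg x y)
    rw [hD]
    nlinarith [sq_nonneg ((A x - mu A) + (B y - mu B))]
  refine h1.trans (le_of_eq ?_)
  rw [w_sum]
  have e1 : ∑ x, (D ^ 2 + 2 * D * (A x - mu A) + 2 * (A x - mu A) ^ 2) =
      2 * M * D ^ 2 + 2 * vr A := by
    rw [Finset.sum_add_distrib, Finset.sum_add_distrib, ← Finset.mul_sum, ← Finset.mul_sum,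
      sum_dev hM, Finset.sum_const, nsmul_eq_mul, hcard]
    unfold vr
    ring
  have e2 : ∑ y, (-2 * D * (B y - mu B) + 2 * (B y - mu B) ^ 2) = 2 * vr B := by
    rw [Finset.sum_add_distrib, ← Finset.mul_sum, ← Finset.mul_sum, sum_dev hM]
    unfold vr
    ring
  rw [e1, e2, ← hD]
  ring

end Pool.Agent.TH985.KL

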